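import Pool.Agent.helper53.EXT.SpecG

/-!
# Project EXT (MP_561ff4_al), row G5F: `r = 5` for `F₄(q)` and `²E₆(q)`, assembly
-/

set_option autoImplicit false

open Finset

namespace Pool.Agent.EXT

open Pool.Agent.EXC

/-- `f` is induced by `g` -/
def G5F_I {K : Type} [Field K] (τ : K ≃+* K) (f : Equiv.Perm (LT τ)) (g : Lm C6 K ≃ₗ[K] Lm C6 K) : Prop :=
  ∀ v : LT τ, (f v : Lm C6 K) = g v

theorem G5F_mul {K : Type} [Field K] {τ : K ≃+* K} {f f' : Equiv.Perm (LT τ)} {g g' : Lm C6 K ≃ₗ[K] Lm C6 K}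
    (h : G5F_I τ f g) (h' : G5F_I τ f' g') : G5F_I τ (f * f') (g * g') := fun v => by
  rw [Equiv.Perm.mul_apply, h, h']; rfl

theorem G5F_inv {K : Type} [Field K] {τ : K ≃+* K} {f : Equiv.Perm (LT τ)} {g : Lm C6 K ≃ₗ[K] Lm C6 K}
    (h : G5F_I τ f g) : G5F_I τ f⁻¹ g⁻¹ := fun v => by
  have e := h (f⁻¹ v)
  have e2 : f (f⁻¹ v) = v := f.apply_symm_apply v
  rw [e2] at e
  rw [e]
  exact (LinearEquiv.symm_apply_apply g _).symm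

theorem G5F_pow {K : Type} [Field K] {τ : K ≃+* K} {f : Equiv.Perm (LT τ)} {g : Lm C6 K ≃ₗ[K] Lm C6 K}
    (h : G5F_I τ f g) (m : ℕ) : G5F_I τ (f ^ m) (g ^ m) := by
  induction m with
  | zero => intro v; rfl
  | succ m ih => rw [pow_succ, pow_succ]; exact G5F_mul ih h

theorem G5F (hG5C : G5C_stmt) (hG5A : G5A_stmt) (hG5L : G5L_stmt) (hG5N : G5N_stmt) (hG5P : G5P_stmt) (hG5X : G5X_stmt)
    (hG5Y : G5Y_stmt) (hG5Z : G5Z_stmt) (hGFX : GFX_stmt) (hGRQ : GRQ_stmt) (hFXF : FXF_stmt) : G5F_stmt := by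
  classical
  intro K _ _ τ hτ h5 x hx hx1
  obtain ⟨c, d, s1, s2, t, f₀, hcd, hs1, hs2, h1, h2, y, hy, hMy, hv⟩ := hG5C K τ hτ x hx hx1
  obtain ⟨F₀, hF₀⟩ : ∃ F₀ : Subfield K, ∀ c, c ∈ F₀ ↔ τ c = c :=
    ⟨(τ : K →+* K).eqLocusField (RingHom.id K), fun c => Iff.rfl⟩
  obtain ⟨a1, ha1⟩ : ∃ a : F₀, (a : K) = s1 := ⟨⟨s1, (hF₀ _).2 hs1⟩, rfl⟩
  obtain ⟨a2, ha2⟩ : ∃ a : F₀, (a : K) = s2 := ⟨⟨s2, (hF₀ _).2 hs2⟩, rfl⟩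
  have hn1 : a1 ≠ 0 := by rintro rfl; exact h1 (by rw [← ha1]; rfl)
  have hn2 : a2 ≠ 0 := by rintro rfl; exact h2 (by rw [← ha2]; rfl)
  obtain ⟨G1, G2, e, he, hZ⟩ : ∃ (G1 G2 : Matrix.SpecialLinearGroup (Fin 4) F₀) (e : F₀), (e = 1 ∨ e = -1) ∧
      ∀ Z : Matrix (Fin 4) (Fin 4) F₀, Z = (G1 : Matrix (Fin 4) (Fin 4) F₀) * Y4 c d a1 a2 *
        ((G1⁻¹ : Matrix.SpecialLinearGroup (Fin 4) F₀) : Matrix (Fin 4) (Fin 4) F₀) *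
        ((G2 : Matrix (Fin 4) (Fin 4) F₀) * Y4 c d a1 a2 *
          ((G2⁻¹ : Matrix.SpecialLinearGroup (Fin 4) F₀) : Matrix (Fin 4) (Fin 4) F₀)) →
        Z ^ 4 + e • Z ^ 3 + Z ^ 2 + e • Z + 1 = 0 := by
    rcases hcd with ⟨rfl, rfl⟩ | ⟨rfl, rfl⟩ | ⟨rfl, rfl⟩
    · exact hG5X F₀ a1 a2 hn1 hn2
    · exact hG5Y F₀ a1 a2 hn1 hn2
    · exact hG5Z F₀ a1 a2 hn1 hn2
  have hZ0 := hZ _ rfl
  obtain ⟨g1, hg1, hM1, hM1'⟩ := hG5L K τ hτ F₀ (fun c hc => (hF₀ c).1 hc) G1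
  obtain ⟨g2, hg2, hM2, hM2'⟩ := hG5L K τ hτ F₀ (fun c hc => (hF₀ c).1 hc) G2
  obtain ⟨-, hmul, -, hone⟩ := hG5A K
  obtain ⟨f1, hf1, hv1⟩ := (hGFX K τ hτ).1 g1 hg1
  obtain ⟨f2, hf2, hv2⟩ := (hGFX K τ hτ).1 g2 hg2
  have hY : (Y4 c d a1 a2).map F₀.subtype = Y4 c d s1 s2 := by
    have e1 : F₀.subtype.mapMatrix (Y4 c d a1 a2) = Y4 c d s1 s2 := by
      unfold Y4
      rw [map_mul, map_add, map_add, map_one, RingHom.mapMatrix_apply, RingHom.mapMatrix_apply,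
        Matrix.map_single, Matrix.map_single]
      · rw [← ha1, ← ha2]; rfl
    exact e1
  -- the matrix of `z`
  obtain ⟨Z0, hZ0d⟩ : ∃ Z : Matrix (Fin 4) (Fin 4) F₀, Z = (G1 : Matrix (Fin 4) (Fin 4) F₀) * Y4 c d a1 a2 *
        ((G1⁻¹ : Matrix.SpecialLinearGroup (Fin 4) F₀) : Matrix (Fin 4) (Fin 4) F₀) *
        ((G2 : Matrix (Fin 4) (Fin 4) F₀) * Y4 c d a1 a2 *
          ((G2⁻¹ : Matrix.SpecialLinearGroup (Fin 4) F₀) : Matrix (Fin 4) (Fin 4) F₀)) := ⟨_, rfl⟩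
  rw [← hZ0d] at hZ0
  have hMz : Mo (g1 * y * g1⁻¹ * (g2 * y * g2⁻¹)) (Z0.map F₀.subtype) := by
    have e1 : Z0.map F₀.subtype = (G1 : Matrix (Fin 4) (Fin 4) F₀).map F₀.subtype * Y4 c d s1 s2 *
        ((G1⁻¹ : Matrix.SpecialLinearGroup (Fin 4) F₀) : Matrix (Fin 4) (Fin 4) F₀).map F₀.subtype *
        ((G2 : Matrix (Fin 4) (Fin 4) F₀).map F₀.subtype * Y4 c d s1 s2 *
          ((G2⁻¹ : Matrix.SpecialLinearGroup (Fin 4) F₀) : Matrix (Fin 4) (Fin 4) F₀).map F₀.subtype) := by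
      rw [hZ0d, Matrix.map_mul, Matrix.map_mul, Matrix.map_mul, Matrix.map_mul, Matrix.map_mul, hY]
    rw [e1]
    exact hmul _ _ _ _ (hmul _ _ _ _ (hmul _ _ _ _ hM1 hMy) hM1') (hmul _ _ _ _ (hmul _ _ _ _ hM2 hMy) hM2')
  have hzGS : g1 * y * g1⁻¹ * (g2 * y * g2⁻¹) ∈ GS τ :=
    mul_mem (mul_mem (mul_mem hg1 hy) (inv_mem hg1)) (mul_mem (mul_mem hg2 hy) (inv_mem hg2))
  have hMpow : ∀ m : ℕ, Mo ((g1 * y * g1⁻¹ * (g2 * y * g2⁻¹)) ^ m) ((Z0.map F₀.subtype) ^ m) := by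
    intro m
    induction m with
    | zero => rw [pow_zero, pow_zero]; exact hone
    | succ m ih => rw [pow_succ, pow_succ]; exact hmul _ _ _ _ ih hMz
  -- the element of the group
  obtain ⟨w, hw⟩ : ∃ w : GF τ, w = x t * t⁻¹ := ⟨_, rfl⟩
  rw [← hw] at hv
  have hI : G5F_I τ ((f₀ * w * f₀⁻¹ : GF τ) : Equiv.Perm (LT τ)) y := hv
  have hI1 : G5F_I τ ((((⟨f1, hf1⟩ : GF τ) * f₀) * w * ((⟨f1, hf1⟩ : GF τ) * f₀)⁻¹ *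
      (((⟨f2, hf2⟩ : GF τ) * f₀) * w * ((⟨f2, hf2⟩ : GF τ) * f₀)⁻¹) : GF τ) : Equiv.Perm (LT τ))
      (g1 * y * g1⁻¹ * (g2 * y * g2⁻¹)) := by
    have e1 : ((((⟨f1, hf1⟩ : GF τ) * f₀) * w * ((⟨f1, hf1⟩ : GF τ) * f₀)⁻¹ *
      (((⟨f2, hf2⟩ : GF τ) * f₀) * w * ((⟨f2, hf2⟩ : GF τ) * f₀)⁻¹) : GF τ) : Equiv.Perm (LT τ)) =
      f1 * ((f₀ * w * f₀⁻¹ : GF τ) : Equiv.Perm (LT τ)) * f1⁻¹ * (f2 * ((f₀ * w * f₀⁻¹ : GF τ) : Equiv.Perm (LT τ)) * f2⁻¹) := by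
      simp only [Subgroup.coe_mul, Subgroup.coe_inv]
      group
    rw [e1]
    exact G5F_mul (G5F_mul (G5F_mul hv1 hI) (G5F_inv hv1)) (G5F_mul (G5F_mul hv2 hI) (G5F_inv hv2))
  have hfin : Finite (GF τ) := inferInstance
  have hres := hGRQ (GF τ) x t 5 2 ![(⟨f1, hf1⟩ : GF τ) * f₀, (⟨f2, hf2⟩ : GF τ) * f₀]
    (((⟨f1, hf1⟩ : GF τ) * f₀) * w * ((⟨f1, hf1⟩ : GF τ) * f₀)⁻¹ *
      (((⟨f2, hf2⟩ : GF τ) * f₀) * w * ((⟨f2, hf2⟩ : GF τ) * f₀)⁻¹)) (by norm_num) ?_ ?_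
  · exact hres
  · refine mul_mem (Subgroup.subset_closure ⟨0, ?_⟩) (Subgroup.subset_closure ⟨1, ?_⟩)
    · rw [hw]; rfl
    · rw [hw]; rfl
  · intro m hm
    have hm' : MulAut.conj ((((⟨f1, hf1⟩ : GF τ) * f₀) * w * ((⟨f1, hf1⟩ : GF τ) * f₀)⁻¹ *
      (((⟨f2, hf2⟩ : GF τ) * f₀) * w * ((⟨f2, hf2⟩ : GF τ) * f₀)⁻¹)) ^ m) = 1 := by rw [map_pow]; exact hm
    have hc := (hFXF K τ hτ).2 _ fun g => by
      have h3 := DFunLike.congr_fun hm' g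
      rw [MulAut.conj_apply, MulAut.one_apply] at h3
      exact mul_inv_eq_iff_eq_mul.1 h3
    have hI2 := G5F_pow hI1 m
    have hfix : ∀ v ∈ LT τ, ((g1 * y * g1⁻¹ * (g2 * y * g2⁻¹)) ^ m) v = v := by
      intro v hvL
      have h4 := hI2 ⟨v, hvL⟩
      rw [← Subgroup.coe_pow, hc] at h4
      exact h4.symm
    have h6 := hG5N K τ hτ _ (pow_mem hzGS m) _ (hMpow m) hfix
    have he' : ((e : F₀) : K) = 1 ∨ ((e : F₀) : K) = -1 := by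
      rcases he with rfl | rfl
      · left; rfl
      · right; rfl
    refine hG5P K h5 (Z0.map F₀.subtype) e he' ?_ m h6
    have h7 := congrArg F₀.subtype.mapMatrix hZ0
    rw [map_zero] at h7
    rw [← h7]
    rcases he with rfl | rfl
    · simp only [one_smul, map_add, map_pow, map_one, RingHom.mapMatrix_apply, OneMemClass.coe_one]
    · simp only [neg_smul, one_smul, map_add, map_neg, map_pow, map_one, RingHom.mapMatrix_apply, NegMemClass.coe_neg,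
        OneMemClass.coe_one]

end Pool.Agent.EXT
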